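import Pool.Agent.Q196.PosIso

/-!
# Positive isomorphisms onto `C[0,1]`

For all uncountable compact metric spaces `K` and `L` there is an isomorphism of `C(K)` onto `C(L)`
which is a positive operator.

Outline.  The identity of `C(M)` factors as `V ∘ A` with positive `A : C(M) → C(K)` and
`V : C(K) → C(M)`, for every compact metric `M` (Miljutin's lemma).  With `M = ℕ∞ × Z` there is a
positive isometry `θ` of `C(M) × C(Z)` onto `C(M)` whose inverse is positive, and then
`(f, v) ↦ f/3 + 2/3 A θ(V f, v)`, `C(K) × C(Z) → C(K)`, and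
`f ↦ (f/3 + 2/3 A (θ⁻¹ V f)₁, (θ⁻¹ V f)₂)`, `C(K) → C(K) × C(Z)`, are positive isomorphisms: on the
kernel of `V` they are multiplication by `1/3`, and on the complement `A (C(M))` they are small
perturbations of `2/3 θ` and of `θ⁻¹` followed by multiplication of the first coordinate by `2/3`.
Hence there are positive isomorphisms `C(K) → C(K) × C(L) → C(L)`.
-/

namespace Pool.Agent.Results.MP_cf3d36_an.PositiveIsomorphisms

universe u v

/-- All pairs of uncountable compact metric spaces. -/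
theorem general (K : Type u) [MetricSpace K] [CompactSpace K] [Uncountable K]
    (L : Type v) [MetricSpace L] [CompactSpace L] [Uncountable L] :
    ∃ T : C(K, ℝ) ≃L[ℝ] C(L, ℝ), ∀ f : C(K, ℝ), (∀ x, 0 ≤ f x) → ∀ y, 0 ≤ T f y := by
  obtain ⟨T, hT⟩ := Pool.Agent.Q196.PosIso.exists_pos_iso K L
  exact ⟨T, fun f hf y => hT f hf y⟩

instance : Uncountable unitInterval := by
  rw [← Cardinal.aleph0_lt_mk_iff]
  have h : Cardinal.mk unitInterval = Cardinal.continuum := Cardinal.mk_Icc_real zero_lt_one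
  rw [h]
  exact Cardinal.aleph0_lt_continuum

/-- For every uncountable compact metric space `K`: there is an isomorphism `T` of `C(K)` onto
`C([0,1])` with `T ≥ 0`; there is one with `T⁻¹ ≥ 0`; and `[0,1]` can be replaced by any uncountable
compact metric space `L`. -/
theorem result (K : Type u) [MetricSpace K] [CompactSpace K] [Uncountable K] :
    (∃ T : C(K, ℝ) ≃L[ℝ] C(unitInterval, ℝ),
      ∀ f : C(K, ℝ), (∀ x, 0 ≤ f x) → ∀ y, 0 ≤ T f y) ∧
    (∃ T : C(K, ℝ) ≃L[ℝ] C(unitInterval, ℝ),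
      ∀ g : C(unitInterval, ℝ), (∀ y, 0 ≤ g y) → ∀ x, 0 ≤ T.symm g x) ∧
    ∀ (L : Type v) [MetricSpace L] [CompactSpace L] [Uncountable L],
      ∃ T : C(K, ℝ) ≃L[ℝ] C(L, ℝ), ∀ f : C(K, ℝ), (∀ x, 0 ≤ f x) → ∀ y, 0 ≤ T f y := by
  refine ⟨general K unitInterval, ?_, fun L _ _ _ => general K L⟩
  obtain ⟨T, hT⟩ := general unitInterval K
  exact ⟨T.symm, hT⟩

end Pool.Agent.Results.MP_cf3d36_an.PositiveIsomorphisms
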